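import Pool.Agent.Lib_helper89.Corson.Square

/-!
# Compacta whose small subsets have Corson closures, and stationary reflection

* A non reflecting stationary set of points of cofinality `ω` of a regular uncountable cardinal
  `κ` yields a compact space of cardinality `κ` which is not Corson although the closure of every
  subset of cardinality less than `κ` is Corson (even a very simple uniform Eberlein compactum).
* Hence a positive answer to Q1 (the frozen statement S12847) implies that all stationary sets of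
  points of cofinality `ω` of all regular cardinals above the continuum reflect, and that Jensen's
  `□_μ` fails for every `μ ≥ 𝔠`.
-/

set_option autoImplicit false

open Set Order Cardinal Pool.Agent.Lib_helper89.Corson

namespace Pool.Agent.Lib_helper89.Superseded.Reflection

/-- The positive answer to Q1, word for word the frozen statement S12847. -/
def PositiveAnswer : Prop :=
  ∀ (X : Type) [TopologicalSpace X] [CompactSpace X] [T2Space X],
    (∀ A : Set X, Cardinal.mk A ≤ Cardinal.continuum →
      ∃ (Γ : Type) (f : ↥(closure A) → (Γ → ℝ)),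
        Topology.IsEmbedding f ∧ ∀ x, (Function.support (f x)).Countable) →
    ∃ (Γ : Type) (f : X → (Γ → ℝ)),
      Topology.IsEmbedding f ∧ ∀ x, (Function.support (f x)).Countable

theorem result :
    (∀ (α : Type) [LinearOrder α] [WellFoundedLT α] [IsRegularCardinalOrder α] (S : Set α),
      ℵ₀ < #α → IsStationary S → (∀ δ ∈ S, cof (Iio δ) = ℵ₀) →
      (∀ β : α, ℵ₀ < cof (Iio β) → ¬ IsStationary (Subtype.val ⁻¹' S : Set (Iio β))) →
      ∃ (X : Type) (_ : TopologicalSpace X), CompactSpace X ∧ T2Space X ∧ #X = #α ∧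
        (∀ A : Set X, #A < #α → TwoSupp (closure A)) ∧
        ¬ ∃ (Γ : Type) (f : X → (Γ → ℝ)),
          Topology.IsEmbedding f ∧ ∀ x, (Function.support (f x)).Countable) ∧
    (PositiveAnswer →
      (∀ (α : Type) [LinearOrder α] [WellFoundedLT α] [IsRegularCardinalOrder α] (S : Set α),
        continuum < #α → IsStationary S → (∀ δ ∈ S, cof (Iio δ) = ℵ₀) →
        ∃ β : α, ℵ₀ < cof (Iio β) ∧ IsStationary (Subtype.val ⁻¹' S : Set (Iio β))) ∧
      ∀ μ : Cardinal.{0}, continuum ≤ μ →
        ∀ (α : Type) [LinearOrder α] [WellFoundedLT α] [IsRegularCardinalOrder α],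
          #α = Order.succ μ → ¬ Square α μ) := by
  have h1 : ∀ (α : Type) [LinearOrder α] [WellFoundedLT α] [IsRegularCardinalOrder α] (S : Set α),
      ℵ₀ < #α → IsStationary S → (∀ δ ∈ S, cof (Iio δ) = ℵ₀) →
      (∀ β : α, ℵ₀ < cof (Iio β) → ¬ IsStationary (Subtype.val ⁻¹' S : Set (Iio β))) →
      ∃ (X : Type) (_ : TopologicalSpace X), CompactSpace X ∧ T2Space X ∧ #X = #α ∧
        (∀ A : Set X, #A < #α → TwoSupp (closure A)) ∧
        ¬ ∃ (Γ : Type) (f : X → (Γ → ℝ)),
          Topology.IsEmbedding f ∧ ∀ x, (Function.support (f x)).Countable :=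
    fun α _ _ _ S hα hS hcof hnr => counterexample hα hS hcof hnr
  have h2 : PositiveAnswer →
      ∀ (α : Type) [LinearOrder α] [WellFoundedLT α] [IsRegularCardinalOrder α] (S : Set α),
        continuum < #α → IsStationary S → (∀ δ ∈ S, cof (Iio δ) = ℵ₀) →
        ∃ β : α, ℵ₀ < cof (Iio β) ∧ IsStationary (Subtype.val ⁻¹' S : Set (Iio β)) := by
    intro hQ α _ _ _ S hα hS hcof
    by_contra hcon
    push Not at hcon
    obtain ⟨X, _, hc, ht, _, hsmall, hbad⟩ := h1 α S (aleph0_lt_continuum.trans hα) hS hcof hcon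
    exact hbad (hQ X fun A hA => (hsmall A (hA.trans_lt hα)).corson)
  refine ⟨h1, fun hQ => ⟨h2 hQ, ?_⟩⟩
  intro μ hμ α _ _ _ hα hsq
  obtain ⟨S, hS, hcof, hnr⟩ := square_nonreflecting (aleph0_le_continuum.trans hμ) hα hsq
  obtain ⟨β, hβ, hst⟩ := h2 hQ α S (by rw [hα]; exact hμ.trans_lt (Order.lt_succ μ)) hS hcof
  exact hnr β hβ hst

end Pool.Agent.Lib_helper89.Superseded.Reflection
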